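import Pool.Agent.V1193.RU.D
import Pool.Agent.W66.LU

set_option autoImplicit false

/-! The laws of the last repunit lengths, and the special amplitude. -/

namespace Pool.Agent.V1193.RU

open Filter Topology MeasureTheory
open Pool.Agent.H305R2 (NN roughPart ff)
open Pool.Agent.V1193.GR (AE AE_empty AE_sub meas_AE wt_mem wt_not wt_pos mass_A real_win NA mem_A)
open Pool.Agent.V1193.BP (VV exp_arg)
open Pool.Agent.V1193.LE (wt wt_nonneg T T_nonneg summable_T T_tendsto T_anti average Last last_eq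
  last_meas tail_eq mean_eq)

lemma NN_exp {b : ℕ} (hb : 1 ≤ b) (n : ℕ) (y : ℝ) :
    NN (n * Real.log b + y) = ⌈Real.exp y * (b : ℝ) ^ n⌉₊ - 1 := by
  have hb0 : (0 : ℝ) < b := by exact_mod_cast hb
  unfold NN
  rw [exp_arg, Real.exp_log hb0]

theorem laws {b : ℕ} (hb : 2 ≤ b) {S : Set ℕ} (hinf : S.Infinite) (hs : Summable (wt S)) {u v : ℝ}
    (huv : u < v) :
    Tendsto (fun n : ℕ => volume.real {y ∈ Set.Ioc u v | n ∈ NA S b (Real.exp y)} /
      (Real.log n / n)) (atTop ⊓ 𝓟 S) (𝓝 (Cc b u v)) ∧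
    (∀ j : ℕ, Tendsto (fun n : ℕ => volume.real {y ∈ Set.Ioc u v | n ∈ NA S b (Real.exp y) ∧
      (j : ℕ∞) ≤ (NA S b (Real.exp y) ∩ Set.Ioi n).encard} / (Real.log n / n) -
        Cc b u v * θ b S n j) (atTop ⊓ 𝓟 S) (𝓝 0)) ∧
    Tendsto (fun n : ℕ => volume.real {y ∈ Set.Ioc u v | IsGreatest (NA S b (Real.exp y)) n} /
      (Real.log n / n * (1 - θ b S n 1))) (atTop ⊓ 𝓟 S) (𝓝 (Cc b u v)) ∧
    Tendsto (fun n : ℕ => volume.real {y ∈ Set.Ioc u v | ∃ m ∈ NA S b (Real.exp y), n ≤ m} /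
      T (wl b S) n) atTop (𝓝 (Cc b u v)) ∧
    Tendsto (fun n : ℕ => (∫ y in Set.Ioc u v, ((NA S b (Real.exp y) ∩ Set.Ici n).ncard : ℝ)) /
      T (wt S) n) atTop (𝓝 (Cc b u v)) ∧
    ∃ K : ℝ, ∀ᶠ n : ℕ in atTop, volume.real {y ∈ Set.Ioc u v | ∃ p ∈ NA S b (Real.exp y),
      ∃ q ∈ NA S b (Real.exp y), n ≤ p ∧ p < q ∧
        ⌈Real.exp y * (b : ℝ) ^ q⌉₊ - 1 ≠ b ^ (q - p) * (⌈Real.exp y * (b : ℝ) ^ p⌉₊ - 1)} ≤
      K * T (wt S) n ^ 2 := by
  have hb1 : (1 : ℝ) < b := by exact_mod_cast (by omega : 1 < b)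
  have hb0 : (0 : ℝ) < b := by linarith
  have hx : 0 < Real.log b := Real.log_pos hb1
  have hmem : ∀ y n, y ∈ AE S (Real.log b) n ↔ n ∈ NA S b (Real.exp y) :=
    fun y n => mem_A hb0 S y n
  have hA : ∀ ε > 0, ∀ᶠ p : ℕ in atTop,
      |(volume.restrict (Set.Ioc u v)).real (AE S (Real.log b) p) - Cc b u v * wt S p| ≤
        ε * wt S p := mass_A hx huv S
  have hw := wt_nonneg S
  have hinf' : ∀ n, ∃ p ≥ n, 0 < wt S p := by
    intro n
    obtain ⟨p, hp, h⟩ := hinf.exists_gt (max n 2)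
    exact ⟨p, ((le_max_left _ _).trans h.le), wt_pos hp ((le_max_right _ _).trans h.le)⟩
  have hinfl : ∀ n, ∃ p ≥ n, 0 < wl b S p := by
    intro n
    obtain ⟨p, hp, h⟩ := hinf' n
    exact ⟨p, hp, by have := wt_le_wl hb hinf p; linarith⟩
  have hsl : Summable (wl b S) := Summable.of_nonneg_of_le (wl_nonneg hb S) (wl_le S) hs
  have hsum : Summable fun p => (volume.restrict (Set.Ioc u v)).real (AE S (Real.log b) p) := by
    refine Summable.of_norm_bounded_eventually_nat (g := fun p => (1 + |Cc b u v|) * wt S p)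
      (hs.mul_left _) ?_
    filter_upwards [hA 1 one_pos] with p hp
    rw [Real.norm_of_nonneg measureReal_nonneg]
    have h1 := (abs_le.1 hp).2
    have h2 := wt_nonneg S p
    have h3 : Cc b u v * wt S p ≤ |Cc b u v| * wt S p :=
      mul_le_mul_of_nonneg_right (le_abs_self _) h2
    nlinarith
  have hsum' : Summable fun m =>
      (volume.restrict (Set.Ioc u v)).real (Last (AE S (Real.log b)) m) :=
    Summable.of_nonneg_of_le (fun m => measureReal_nonneg)
      (fun m => measureReal_mono fun y hy => hy.1) hsum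
  have hratio : ∀ {a w : ℕ → ℝ}, (∀ p, 2 ≤ p → p ∈ S → 0 < w p) →
      (∀ ε > 0, ∀ᶠ p : ℕ in atTop, |a p - Cc b u v * w p| ≤ ε * w p) →
      Tendsto (fun p => a p / w p) (atTop ⊓ 𝓟 S) (𝓝 (Cc b u v)) := by
    intro a w hw h
    rw [Metric.tendsto_nhds]
    intro ε hε
    rw [eventually_inf_principal]
    filter_upwards [h (ε / 2) (by positivity), eventually_ge_atTop 2] with p h1 h2 hp
    have h3 := hw p h2 hp
    rw [Real.dist_eq]
    have e : a p / w p - Cc b u v = (a p - Cc b u v * w p) / w p := by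
      field_simp
    rw [e, abs_div, abs_of_pos h3, div_lt_iff₀ h3]
    nlinarith
  refine ⟨?_, fun j => ?_, ?_, ?_, ?_, ?_⟩
  · refine (hratio (fun p h2 hp => wt_pos hp h2) hA).congr' ?_
    rw [EventuallyEq, eventually_inf_principal]
    refine Eventually.of_forall fun n hn => ?_
    rw [wt_mem hn, real_win]
    congr 2
    ext z
    exact and_congr_right fun _ => hmem z n
  · rw [Metric.tendsto_nhds]
    intro ε hε
    rw [eventually_inf_principal]
    filter_upwards [later_mass hb huv hinf hs j (ε / 2) (by positivity), eventually_ge_atTop 2]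
      with p h1 h2 hp
    have h3 := wt_pos hp h2
    have e1 : volume.real {y ∈ Set.Ioc u v | p ∈ NA S b (Real.exp y) ∧
        (j : ℕ∞) ≤ (NA S b (Real.exp y) ∩ Set.Ioi p).encard} =
        (volume.restrict (Set.Ioc u v)).real (LJ S b j p) := by
      rw [real_win]
      congr 1
      ext z
      refine and_congr_right fun _ => ?_
      unfold LJ
      have e2 : {q | p < q ∧ z ∈ AE S (Real.log b) q} = NA S b (Real.exp z) ∩ Set.Ioi p := by
        ext q
        constructor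
        · rintro ⟨h4, h5⟩
          exact ⟨(hmem z q).1 h5, h4⟩
        · rintro ⟨h5, h4⟩
          exact ⟨h4, (hmem z q).2 h5⟩
      rw [Set.mem_ofPred_eq, hmem, e2]
    rw [← wt_mem hp, Real.dist_eq, sub_zero]
    have e : volume.real {y ∈ Set.Ioc u v | p ∈ NA S b (Real.exp y) ∧
        (j : ℕ∞) ≤ (NA S b (Real.exp y) ∩ Set.Ioi p).encard} / wt S p - Cc b u v * θ b S p j =
        ((volume.restrict (Set.Ioc u v)).real (LJ S b j p) - Cc b u v * θ b S p j * wt S p) /
          wt S p := by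
      rw [e1]
      field_simp
    rw [e, abs_div, abs_of_pos h3, div_lt_iff₀ h3]
    nlinarith
  · refine (hratio (w := wl b S) (fun p h2 hp => ?_) (last_mass hb huv hinf hs)).congr' ?_
    · have h3 := wt_pos hp h2
      have := wt_le_wl hb hinf p
      linarith
    rw [EventuallyEq, eventually_inf_principal]
    refine Eventually.of_forall fun n hn => ?_
    rw [wl, wt_mem hn, real_win]
    congr 2
    ext z
    refine and_congr_right fun _ => ?_
    have : {k | z ∈ AE S (Real.log b) k} = NA S b (Real.exp z) := by ext k; exact hmem z k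
    show IsGreatest {k | z ∈ AE S (Real.log b) k} n ↔ _
    rw [this]
  · refine (average (wl_nonneg hb S) hsl hsum' hinfl (last_mass hb huv hinf hs)).congr fun n => ?_
    rw [← tail_eq (meas_AE S _) hsum, real_win]
    congr 2
    ext z
    refine and_congr_right fun _ => ?_
    constructor
    · rintro ⟨m, h6, h7⟩
      exact ⟨m, (hmem z m).1 h7, h6⟩
    · rintro ⟨m, h7, h6⟩
      exact ⟨m, h6, (hmem z m).2 h7⟩
  · refine (average hw hs hsum hinf' hA).congr fun n => ?_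
    rw [← mean_eq (meas_AE S _) hsum]
    congr 1
    refine integral_congr_ae (Eventually.of_forall fun z => ?_)
    simp only
    congr 2
    ext m
    constructor
    · rintro ⟨h6, h7⟩
      exact ⟨(hmem z m).1 h7, h6⟩
    · rintro ⟨h7, h6⟩
      exact ⟨h6, (hmem z m).2 h7⟩
  · obtain ⟨K, hK, N, hpair⟩ := pair_ND hb huv S
    refine ⟨K, ?_⟩
    filter_upwards [eventually_ge_atTop N] with n hn
    refine le_trans ?_ (two_sum (μ := volume.restrict (Set.Ioc u v))
      (D := fun p q => ND S b p q) hw hs hK hpair hn)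
    rw [real_win]
    refine measureReal_mono ?_ ?_
    · rintro z ⟨h0, p, hp, q, hq, h1, h2, h3⟩
      refine ⟨h0, p, q, h1, h2, (hmem z p).2 hp, (hmem z q).2 hq, ?_⟩
      unfold mn nn
      rw [NN_exp (by omega), NN_exp (by omega), if_neg h3]
      simp
    · exact ((measure_mono (fun z hz => hz.1)).trans_lt
        (show volume (Set.Ioc u v) < ⊤ by simp)).ne

/-! ### The special amplitude -/

lemma geo {b : ℕ} (hb : 2 ≤ b) (n : ℕ) : (∑ i ∈ Finset.range n, b ^ i) * (b - 1) + 1 = b ^ n := by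
  obtain ⟨x, rfl⟩ : ∃ x, b = x + 1 := ⟨b - 1, by omega⟩
  rw [Nat.add_sub_cancel]
  exact geom_sum_mul_add x n

lemma N_special {b : ℕ} (hb : 2 ≤ b) (n : ℕ) :
    ⌈(1 / ((b : ℝ) - 1)) * (b : ℝ) ^ n⌉₊ - 1 = ∑ i ∈ Finset.range n, b ^ i := by
  have hb1 : (1 : ℝ) < b := by exact_mod_cast (by omega : 1 < b)
  have h := geo hb n
  set R := ∑ i ∈ Finset.range n, b ^ i with hR
  have h' : (R : ℝ) * ((b : ℝ) - 1) + 1 = (b : ℝ) ^ n := by
    have h2 : ((R * (b - 1) + 1 : ℕ) : ℝ) = ((b ^ n : ℕ) : ℝ) := by rw [h]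
    rw [Nat.cast_add, Nat.cast_mul, Nat.cast_sub (by omega), Nat.cast_pow] at h2
    simpa using h2
  have h6 : ⌈(1 / ((b : ℝ) - 1)) * (b : ℝ) ^ n⌉₊ = R + 1 := by
    have hpos : (0 : ℝ) < (b : ℝ) - 1 := by linarith
    have e : (1 / ((b : ℝ) - 1)) * (b : ℝ) ^ n = R + 1 / ((b : ℝ) - 1) := by
      rw [← h']
      field_simp
    rw [Nat.ceil_eq_iff (Nat.succ_ne_zero _), e]
    constructor
    · have : 0 < 1 / ((b : ℝ) - 1) := by positivity
      rw [Nat.succ_sub_one]
      linarith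
    · push_cast
      have : 1 / ((b : ℝ) - 1) ≤ 1 := by
        rw [div_le_one hpos]
        have hb2 : (2 : ℝ) ≤ b := by exact_mod_cast hb
        linarith
      linarith
  rw [h6, Nat.add_sub_cancel]

lemma rough_special {b : ℕ} (hb : 2 ≤ b) {p : ℕ} (hp : p.Prime) (hpd : ¬ p ∣ b - 1) :
    roughPart p (⌈(1 / ((b : ℝ) - 1)) * (b : ℝ) ^ p⌉₊ - 1) = ∑ i ∈ Finset.range p, b ^ i := by
  rw [N_special hb]
  exact Pool.Agent.W66L.rough_repunit hb hp hpd

lemma not_block {b : ℕ} (hb : 2 ≤ b) {p q : ℕ} (hpq : p < q) :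
    (∑ i ∈ Finset.range q, b ^ i) ≠ b ^ (q - p) * ∑ i ∈ Finset.range p, b ^ i := by
  intro h
  obtain ⟨m, rfl⟩ : ∃ m, q = m + 1 := ⟨q - 1, by omega⟩
  obtain ⟨k, hk⟩ : ∃ k, m + 1 - p = k + 1 := ⟨m - p, by omega⟩
  have h1 : b ∣ ∑ i ∈ Finset.range (m + 1), b ^ i := by
    rw [h, hk, pow_succ]
    exact ⟨b ^ k * ∑ i ∈ Finset.range p, b ^ i, by ring⟩
  rw [Finset.sum_range_succ', pow_zero] at h1
  have h2 : b ∣ ∑ i ∈ Finset.range m, b ^ (i + 1) :=
    Finset.dvd_sum fun i _ => Dvd.intro_left _ (pow_succ b i).symm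
  have h3 := (Nat.dvd_add_right h2).1 h1
  have := Nat.le_of_dvd one_pos h3
  omega

lemma prime_of_repunit {b : ℕ} (hb : 2 ≤ b) {n : ℕ} (h : (∑ i ∈ Finset.range n, b ^ i).Prime) :
    n.Prime := by
  have hinj : ∀ m k : ℕ, (∑ i ∈ Finset.range m, b ^ i) = (∑ i ∈ Finset.range k, b ^ i) → m = k := by
    intro m k hmk
    have h1 := geo hb m
    have h2 := geo hb k
    rw [hmk, h2] at h1
    exact (Nat.pow_right_injective hb h1).symm
  have h0 : n ≠ 0 := by
    rintro rfl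
    simp at h
    exact Nat.not_prime_zero h
  have h1 : n ≠ 1 := by
    rintro rfl
    simp at h
    exact Nat.not_prime_one h
  rw [Nat.prime_def]
  refine ⟨by omega, fun m hm => ?_⟩
  obtain ⟨k, rfl⟩ := hm
  have hd : (∑ i ∈ Finset.range m, b ^ i) ∣ ∑ i ∈ Finset.range (m * k), b ^ i := by
    have h2 := geo hb m
    have h3 := geo hb (m * k)
    have h4 : b ^ m - 1 ∣ (b ^ m) ^ k - 1 ^ k := Nat.sub_dvd_pow_sub_pow _ _ _
    rw [one_pow, ← pow_mul, ← h2, ← h3, Nat.add_sub_cancel, Nat.add_sub_cancel] at h4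
    exact Nat.dvd_of_mul_dvd_mul_right (by omega) h4
  rcases (Nat.dvd_prime h).1 hd with h2 | h2
  · left
    exact hinj m 1 (by rw [h2]; simp)
  · right
    exact hinj _ _ h2

theorem q1 : {n : ℕ | (∑ i ∈ Finset.range n, 10 ^ i).Prime}.Infinite ↔
    ({n | n ∈ {p : ℕ | p.Prime} ∧ (roughPart n (⌈(1 / 9 : ℝ) * (10 : ℝ) ^ n⌉₊ - 1)).Prime}).Infinite := by
  have key : ∀ n : ℕ, n ≠ 3 → ((∑ i ∈ Finset.range n, 10 ^ i).Prime ↔
      n ∈ {p : ℕ | p.Prime} ∧ (roughPart n (⌈(1 / 9 : ℝ) * (10 : ℝ) ^ n⌉₊ - 1)).Prime) := by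
    intro n h3
    have e : ∀ {n : ℕ}, n.Prime → n ≠ 3 →
        roughPart n (⌈(1 / 9 : ℝ) * (10 : ℝ) ^ n⌉₊ - 1) = ∑ i ∈ Finset.range n, 10 ^ i := by
      intro n hn h3
      have h := rough_special (b := 10) (by norm_num) hn (by
        intro h
        have h2 : n ∣ 3 := by
          have : n ∣ 3 ^ 2 := by simpa using h
          exact hn.dvd_of_dvd_pow this
        exact h3 ((Nat.prime_dvd_prime_iff_eq hn Nat.prime_three).1 h2))
      rw [← h]
      norm_num
    constructor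
    · intro h
      have hn := prime_of_repunit (b := 10) (by norm_num) h
      exact ⟨hn, by rw [e hn h3]; exact h⟩
    · rintro ⟨hn, h⟩
      rwa [e hn h3] at h
  have aux : ∀ {A B : Set ℕ}, (∀ n, n ≠ 3 → (n ∈ A → n ∈ B)) → A.Infinite → B.Infinite := by
    intro A B h hA hB
    refine hA ((hB.union (Set.finite_singleton 3)).subset fun n hn => ?_)
    by_cases h3 : n = 3
    · exact Or.inr h3
    · exact Or.inl (h n h3 hn)
  exact ⟨aux fun n h3 h => (key n h3).1 h, aux fun n h3 h => (key n h3).2 h⟩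

end Pool.Agent.V1193.RU
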