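import Pool.Agent.V1193.GR.D

set_option autoImplicit false

/-! The first part of a cell. -/

namespace Pool.Agent.V1193.RU

open Finset Filter Topology MeasureTheory
open Pool.Agent.H305R2 (NN roughPart measurable_NN ff measurable_ff ff_nonneg ff_le_one mem_Ioc_log)
open Pool.Agent.V1193.FM (log_step)

/-- `1` if `exp y` lies in the first part of length `θ` of its cell -/
noncomputable def zz (θ : ℝ) (y : ℝ) : ℝ := if Real.exp y ≤ NN y + θ then 1 else 0

lemma zz01 (θ y : ℝ) : zz θ y = 0 ∨ zz θ y = 1 := by unfold zz; split_ifs <;> simp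

lemma zz_nonneg (θ y : ℝ) : 0 ≤ zz θ y := by unfold zz; split_ifs <;> norm_num

lemma zz_le_one (θ y : ℝ) : zz θ y ≤ 1 := by unfold zz; split_ifs <;> norm_num

lemma measurable_zz (θ : ℝ) : Measurable (zz θ) := by
  unfold zz
  refine Measurable.ite ?_ measurable_const measurable_const
  exact measurableSet_le Real.measurable_exp
    (((measurable_from_nat (f := fun n : ℕ => (n : ℝ))).comp measurable_NN).add_const θ)

lemma bernoulli {x θ : ℝ} (hx : 0 ≤ x) (hθ0 : 0 ≤ θ) (hθ1 : θ ≤ 1) :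
    θ * Real.log (1 + x) ≤ Real.log (1 + θ * x) := by
  have h := rpow_one_add_le_one_add_mul_self (s := x) (by linarith) hθ0 hθ1
  rw [← Real.log_rpow (by linarith)]
  exact Real.log_le_log (Real.rpow_pos_of_pos (by linarith) _) h

/-- the integral over one cell -/
lemma cell {a : ℝ → ℝ} {θ : ℝ} (hθ0 : 0 ≤ θ) (hθ1 : θ ≤ 1) {N : ℕ} (hN : 1 ≤ N) {s : ℝ}
    (hs : ∀ t ∈ Set.Ioc (Real.log N) (Real.log ((N + 1 : ℕ) : ℝ)), a t = s) (hs0 : 0 ≤ s)
    (hs1 : s ≤ 1) :
    0 ≤ ∫ t in (Real.log N)..(Real.log ((N + 1 : ℕ) : ℝ)), a t * (zz θ t - θ) ∧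
      ∫ t in (Real.log N)..(Real.log ((N + 1 : ℕ) : ℝ)), a t * (zz θ t - θ) ≤
        1 / (N : ℝ) - 1 / ((N + 1 : ℕ) : ℝ) := by
  have hN1 : (1 : ℝ) ≤ N := by exact_mod_cast hN
  have hN0 : (0 : ℝ) < N := by linarith
  have hle : Real.log N ≤ Real.log ((N + 1 : ℕ) : ℝ) :=
    Real.log_le_log hN0 (by push_cast; linarith)
  have hm : Real.log N ≤ Real.log (N + θ) := Real.log_le_log hN0 (by linarith)
  have hm' : Real.log (N + θ) ≤ Real.log ((N + 1 : ℕ) : ℝ) :=
    Real.log_le_log (by linarith) (by push_cast; linarith)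
  have hz : ∫ t in Set.Ioc (Real.log N) (Real.log ((N + 1 : ℕ) : ℝ)), zz θ t =
      Real.log (N + θ) - Real.log N := by
    have e : ∫ t in Set.Ioc (Real.log N) (Real.log ((N + 1 : ℕ) : ℝ)), zz θ t =
        ∫ t in Set.Ioc (Real.log N) (Real.log ((N + 1 : ℕ) : ℝ)),
          (Set.Ioc (Real.log N) (Real.log (N + θ))).indicator (fun _ => (1 : ℝ)) t := by
      refine setIntegral_congr_fun measurableSet_Ioc fun t ht => ?_
      have hNN : NN t = N := (mem_Ioc_log hN).1 ht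
      simp only [zz, hNN]
      by_cases h : Real.exp t ≤ N + θ
      · rw [if_pos h, Set.indicator_of_mem]
        refine ⟨ht.1, ?_⟩
        rw [Real.le_log_iff_exp_le (by linarith)]
        exact h
      · rw [if_neg h, Set.indicator_of_notMem]
        intro h2
        exact h ((Real.le_log_iff_exp_le (by linarith)).1 h2.2)
    rw [e, setIntegral_indicator measurableSet_Ioc, setIntegral_const, smul_eq_mul, mul_one,
      Set.inter_eq_self_of_subset_right (Set.Ioc_subset_Ioc le_rfl hm'),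
      Real.volume_real_Ioc_of_le hm]
  have hval : ∫ t in (Real.log N)..(Real.log ((N + 1 : ℕ) : ℝ)), a t * (zz θ t - θ) =
      s * ((Real.log (N + θ) - Real.log N) - θ * (Real.log ((N + 1 : ℕ) : ℝ) - Real.log N)) := by
    rw [intervalIntegral.integral_of_le hle]
    have e : ∫ t in Set.Ioc (Real.log N) (Real.log ((N + 1 : ℕ) : ℝ)), a t * (zz θ t - θ) =
        ∫ t in Set.Ioc (Real.log N) (Real.log ((N + 1 : ℕ) : ℝ)), s * (zz θ t - θ) :=
      setIntegral_congr_fun measurableSet_Ioc fun t ht => by simp only [hs t ht]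
    have hzi : IntegrableOn (zz θ) (Set.Ioc (Real.log N) (Real.log ((N + 1 : ℕ) : ℝ))) := by
      refine Measure.integrableOn_of_bounded (M := 1) (by simp)
        (measurable_zz θ).aestronglyMeasurable ?_
      refine Eventually.of_forall fun t => ?_
      rw [Real.norm_of_nonneg (zz_nonneg θ t)]
      exact zz_le_one θ t
    rw [e, integral_const_mul, integral_sub hzi (integrableOn_const (by simp)), hz,
      setIntegral_const, smul_eq_mul, Real.volume_real_Ioc_of_le hle]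
    ring
  have e1 : Real.log (N + θ) - Real.log N = Real.log (1 + θ * (1 / N)) := by
    rw [← Real.log_div (by linarith) hN0.ne']
    congr 1
    field_simp
  have e2 : Real.log ((N + 1 : ℕ) : ℝ) - Real.log N = Real.log (1 + 1 / N) := by
    rw [← Real.log_div (by positivity) hN0.ne']
    congr 1
    push_cast
    field_simp
  have hx : (0 : ℝ) ≤ 1 / N := by positivity
  have h1 := bernoulli hx hθ0 hθ1
  have h2 : Real.log (1 + θ * (1 / N)) ≤ θ * (1 / N) := by
    have := Real.log_le_sub_one_of_pos (show 0 < 1 + θ * (1 / (N : ℝ)) by positivity)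
    linarith
  have h3 : 1 / ((N + 1 : ℕ) : ℝ) ≤ Real.log (1 + 1 / N) := by
    have := Real.one_sub_inv_le_log_of_pos (show (0 : ℝ) < 1 + 1 / N by positivity)
    have e3 : 1 - (1 + 1 / (N : ℝ))⁻¹ = 1 / ((N + 1 : ℕ) : ℝ) := by
      push_cast
      field_simp
      ring
    linarith
  have h4 : (0 : ℝ) ≤ 1 / (N : ℝ) - 1 / ((N + 1 : ℕ) : ℝ) := by
    have : 1 / ((N + 1 : ℕ) : ℝ) ≤ 1 / (N : ℝ) :=
      one_div_le_one_div_of_le hN0 (by push_cast; linarith)
    linarith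
  rw [hval, e1, e2]
  refine ⟨mul_nonneg hs0 (by linarith), ?_⟩
  have h5 : Real.log (1 + θ * (1 / N)) - θ * Real.log (1 + 1 / N) ≤
      θ * (1 / (N : ℝ) - 1 / ((N + 1 : ℕ) : ℝ)) := by
    have := mul_le_mul_of_nonneg_left h3 hθ0
    linarith
  calc s * (Real.log (1 + θ * (1 / N)) - θ * Real.log (1 + 1 / N)) ≤
      1 * (θ * (1 / (N : ℝ) - 1 / ((N + 1 : ℕ) : ℝ))) :=
        mul_le_mul hs1 h5 (by linarith) zero_le_one
    _ ≤ _ := by nlinarith

/-- **The first part of the cells.** -/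
theorem block {a : ℝ → ℝ} (ha0 : ∀ t, 0 ≤ a t) (ha1 : ∀ t, a t ≤ 1) (ham : Measurable a)
    (hav : ∀ N : ℕ, 1 ≤ N → ∃ s : ℝ, ∀ t ∈ Set.Ioc (Real.log N) (Real.log ((N + 1 : ℕ) : ℝ)),
      a t = s) {θ : ℝ} (hθ0 : 0 ≤ θ) (hθ1 : θ ≤ 1) {U V : ℝ} (hU : 1 ≤ U) (hUV : U ≤ V) :
    |∫ y in Set.Ioc U V, a y * (zz θ y - θ)| ≤ 6 * Real.exp (-U) := by
  set G : ℝ → ℝ := fun y => a y * (zz θ y - θ) with hG
  have hGm : Measurable G := ham.mul ((measurable_zz θ).sub_const θ)
  have hG1 : ∀ y, ‖G y‖ ≤ 1 := by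
    intro y
    rw [hG, Real.norm_eq_abs, abs_mul, abs_of_nonneg (ha0 y)]
    have h1 := zz_nonneg θ y
    have h2 := zz_le_one θ y
    have h3 : |zz θ y - θ| ≤ 1 := by rw [abs_le]; constructor <;> linarith
    exact mul_le_one₀ (ha1 y) (abs_nonneg _) h3
  have hGi : ∀ c d : ℝ, IntervalIntegrable G volume c d := by
    intro c d
    rw [intervalIntegrable_iff]
    refine Measure.integrableOn_of_bounded (M := 1) (by simp [Set.uIoc]) hGm.aestronglyMeasurable ?_
    exact Eventually.of_forall fun t => hG1 t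
  set N0 := ⌊Real.exp U⌋₊ with hN0
  set N1 := ⌊Real.exp V⌋₊ with hN1
  have hN0p : 1 ≤ N0 := Nat.floor_pos.2 (Real.one_le_exp (by linarith))
  have hN01 : N0 ≤ N1 := Nat.floor_mono (Real.exp_le_exp.2 hUV)
  have hN0r : (1 : ℝ) ≤ N0 := by exact_mod_cast hN0p
  have hN01r : (N0 : ℝ) ≤ N1 := by exact_mod_cast hN01
  have hlU : Real.log N0 ≤ U := by
    rw [Real.log_le_iff_le_exp (by linarith)]
    exact Nat.floor_le (Real.exp_pos _).le
  have hlV : Real.log N1 ≤ V := by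
    rw [Real.log_le_iff_le_exp (by linarith)]
    exact Nat.floor_le (Real.exp_pos _).le
  have hU' : U ≤ Real.log ((N0 + 1 : ℕ) : ℝ) := by
    rw [Real.le_log_iff_exp_le (by positivity)]
    push_cast
    exact (Nat.lt_floor_add_one _).le
  have hV' : V ≤ Real.log ((N1 + 1 : ℕ) : ℝ) := by
    rw [Real.le_log_iff_exp_le (by positivity)]
    push_cast
    exact (Nat.lt_floor_add_one _).le
  have hlog : ∀ N : ℕ, 1 ≤ N → Real.log ((N + 1 : ℕ) : ℝ) - Real.log N ≤ 1 / N := by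
    intro N hN
    have hN0 : (0 : ℝ) < N := by exact_mod_cast hN
    rw [← Real.log_div (by positivity) hN0.ne']
    have h6 := Real.log_le_sub_one_of_pos (show (0 : ℝ) < ((N + 1 : ℕ) : ℝ) / N by positivity)
    have h7 : ((N + 1 : ℕ) : ℝ) / N - 1 = 1 / (N : ℝ) := by push_cast; field_simp; ring
    linarith
  have hd0 := hlog N0 hN0p
  have hd1 := hlog N1 (hN0p.trans hN01)
  have hinv : 1 / (N1 : ℝ) ≤ 1 / (N0 : ℝ) := one_div_le_one_div_of_le (by linarith) hN01r
  have hexp : 1 / (N0 : ℝ) ≤ 2 * Real.exp (-U) := by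
    have h1 : Real.exp U < N0 + 1 := Nat.lt_floor_add_one _
    have h2 : 0 < Real.exp U := Real.exp_pos U
    rw [Real.exp_neg, div_le_iff₀ (by linarith), mul_assoc, ← div_eq_inv_mul, mul_div_assoc',
      le_div_iff₀ h2]
    linarith
  -- the sum over the cells
  have hsum := intervalIntegral.sum_integral_adjacent_intervals_Ico (f := G) (μ := volume)
    (a := fun N : ℕ => Real.log (N : ℝ)) (m := N0) (n := N1 + 1) (by omega) (fun N _ => hGi _ _)
  have hcells : ∀ N ∈ Finset.Ico N0 (N1 + 1),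
      0 ≤ ∫ t in (Real.log (N : ℝ))..(Real.log ((N + 1 : ℕ) : ℝ)), G t ∧
      ∫ t in (Real.log (N : ℝ))..(Real.log ((N + 1 : ℕ) : ℝ)), G t ≤
        1 / (N : ℝ) - 1 / ((N + 1 : ℕ) : ℝ) := by
    intro N hN
    rw [Finset.mem_Ico] at hN
    have hNp : 1 ≤ N := hN0p.trans hN.1
    obtain ⟨s, hs⟩ := hav N hNp
    have hmem : Real.log ((N + 1 : ℕ) : ℝ) ∈
        Set.Ioc (Real.log N) (Real.log ((N + 1 : ℕ) : ℝ)) := by
      refine ⟨Real.log_lt_log (by exact_mod_cast hNp) (by push_cast; linarith), le_rfl⟩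
    have hs0 : 0 ≤ s := by rw [← hs _ hmem]; exact ha0 _
    have hs1 : s ≤ 1 := by rw [← hs _ hmem]; exact ha1 _
    exact cell hθ0 hθ1 hNp hs hs0 hs1
  have hI0 : 0 ≤ ∫ t in (Real.log N0)..(Real.log ((N1 + 1 : ℕ) : ℝ)), G t := by
    rw [← hsum]
    exact Finset.sum_nonneg fun N hN => (hcells N hN).1
  have hI1 : ∫ t in (Real.log N0)..(Real.log ((N1 + 1 : ℕ) : ℝ)), G t ≤ 1 / (N0 : ℝ) := by
    rw [← hsum]
    refine (Finset.sum_le_sum fun N hN => (hcells N hN).2).trans ?_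
    have e : ∑ N ∈ Finset.Ico N0 (N1 + 1), (1 / (N : ℝ) - 1 / ((N + 1 : ℕ) : ℝ)) =
        1 / (N0 : ℝ) - 1 / ((N1 + 1 : ℕ) : ℝ) := by
      have h := Finset.sum_Ico_sub (fun N : ℕ => -(1 / (N : ℝ))) (show N0 ≤ N1 + 1 by omega)
      have e2 : ∀ N : ℕ, 1 / (N : ℝ) - 1 / ((N + 1 : ℕ) : ℝ) =
          -(1 / ((N + 1 : ℕ) : ℝ)) - -(1 / (N : ℝ)) := fun N => by ring
      simp only [e2]
      rw [h]
      ring
    rw [e]
    have : (0 : ℝ) ≤ 1 / ((N1 + 1 : ℕ) : ℝ) := by positivity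
    linarith
  -- the ends
  have hb1 : |∫ t in (Real.log N0)..U, G t| ≤ 1 / (N0 : ℝ) := by
    have h := intervalIntegral.norm_integral_le_of_norm_le_const (a := Real.log N0) (b := U)
      (f := G) (C := 1) (fun t _ => hG1 t)
    rw [Real.norm_eq_abs, one_mul, abs_of_nonneg (show 0 ≤ U - Real.log N0 by linarith)] at h
    linarith
  have hb2 : |∫ t in V..(Real.log ((N1 + 1 : ℕ) : ℝ)), G t| ≤ 1 / (N0 : ℝ) := by
    have h := intervalIntegral.norm_integral_le_of_norm_le_const (a := V)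
      (b := Real.log ((N1 + 1 : ℕ) : ℝ)) (f := G) (C := 1) (fun t _ => hG1 t)
    rw [Real.norm_eq_abs, one_mul,
      abs_of_nonneg (show 0 ≤ Real.log ((N1 + 1 : ℕ) : ℝ) - V by linarith)] at h
    linarith
  have hsplit1 := intervalIntegral.integral_add_adjacent_intervals (hGi (Real.log N0) U) (hGi U V)
  have hsplit2 := intervalIntegral.integral_add_adjacent_intervals (hGi (Real.log N0) V)
    (hGi V (Real.log ((N1 + 1 : ℕ) : ℝ)))
  rw [← intervalIntegral.integral_of_le hUV]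
  have b1 := abs_le.1 hb1
  have b2 := abs_le.1 hb2
  rw [abs_le]
  constructor <;> linarith

/-- the zero block in terms of the next integer -/
lemma zz_iff {b : ℕ} (hb : 1 ≤ b) {x : ℝ} (hx : x = Real.log b) (p h : ℕ) (t : ℝ) :
    zz (((b : ℝ) ^ h)⁻¹) (p * x + t) = 1 ↔
      NN ((p + h : ℕ) * x + t) = b ^ h * NN (p * x + t) := by
  have hb0 : (0 : ℝ) < b := by exact_mod_cast hb
  have hbh : (0 : ℝ) < (b : ℝ) ^ h := by positivity
  set y := p * x + t with hy
  have e : Real.exp ((p + h : ℕ) * x + t) = (b : ℝ) ^ h * Real.exp y := by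
    have : ((p + h : ℕ) : ℝ) * x + t = h * x + y := by rw [hy]; push_cast; ring
    rw [this, Real.exp_add, Real.exp_nat_mul, hx, Real.exp_log hb0]
  have hpos : 0 < Real.exp y := Real.exp_pos y
  have hc : 0 < ⌈Real.exp y⌉₊ := Nat.ceil_pos.2 hpos
  have hN1 : (NN y : ℝ) < Real.exp y := by
    unfold NN
    rw [Nat.cast_sub (by omega)]
    have := Nat.ceil_lt_add_one hpos.le
    push_cast
    linarith
  unfold zz
  have h1 : (if Real.exp y ≤ NN y + ((b : ℝ) ^ h)⁻¹ then (1 : ℝ) else 0) = 1 ↔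
      Real.exp y ≤ NN y + ((b : ℝ) ^ h)⁻¹ := by split_ifs with hh <;> simp [hh]
  rw [h1]
  have h2 : NN ((p + h : ℕ) * x + t) = ⌈(b : ℝ) ^ h * Real.exp y⌉₊ - 1 := by
    unfold NN; rw [e]
  rw [h2]
  have hc2 : 0 < ⌈(b : ℝ) ^ h * Real.exp y⌉₊ := Nat.ceil_pos.2 (by positivity)
  have h3 : ⌈(b : ℝ) ^ h * Real.exp y⌉₊ - 1 = b ^ h * NN y ↔
      ⌈(b : ℝ) ^ h * Real.exp y⌉₊ = b ^ h * NN y + 1 := by omega
  rw [h3, Nat.ceil_eq_iff (by omega), Nat.add_sub_cancel]
  push_cast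
  constructor
  · intro h4
    refine ⟨?_, ?_⟩
    · exact mul_lt_mul_of_pos_left hN1 hbh
    · have := mul_le_mul_of_nonneg_left h4 hbh.le
      rw [mul_add, mul_inv_cancel₀ hbh.ne'] at this
      exact this
  · rintro ⟨_, h5⟩
    have : (b : ℝ) ^ h * Real.exp y ≤ (b : ℝ) ^ h * (NN y + ((b : ℝ) ^ h)⁻¹) := by
      rw [mul_add, mul_inv_cancel₀ hbh.ne']
      exact h5
    exact le_of_mul_le_mul_left this hbh

end Pool.Agent.V1193.RU
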