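import Pool.Agent.V1193.RU.A
import Pool.Agent.V60.Gap.Near
import Pool.Agent.V60.Gap.Same

set_option autoImplicit false

/-! An integer base: pairs of indices. -/

namespace Pool.Agent.V1193.RU

open Finset Filter Topology MeasureTheory
open Pool.Agent.H305R2 (NN roughPart measurable_NN ff measurable_ff ff_nonneg ff_le_one mem_Ioc_log
  roughPart_prime)
open Pool.Agent.W66X (ysh)
open Pool.Agent.W66V (bad measurableSet_bad)
open Pool.Agent.V1193.GR (ysh_zero ff_zero windows combine far_pair fam_ff AE BE_empty AE_empty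
  AE_sub meas_AE real01 to_wt wt_mem wt_not wt_pos mass_A Law)
open Pool.Agent.V1193.BP (ff01 shift_int)
open Pool.Agent.V1193.LE (wt wt_nonneg)

/-- the pair is new -/
noncomputable def nn (b p q : ℕ) (t : ℝ) : ℝ :=
  if NN (q * Real.log b + t) = b ^ (q - p) * NN (p * Real.log b + t) then 0 else 1

lemma nn01 (b p q : ℕ) (t : ℝ) : nn b p q t = 0 ∨ nn b p q t = 1 := by
  unfold nn; split_ifs <;> simp

lemma nw_eq {b : ℕ} (hb : 1 ≤ b) (p q : ℕ) (t : ℝ) :
    Pool.Agent.V60.Gap.nw b (fun _ => 0) p q t = nn b p q t := by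
  have hb0 : (0 : ℝ) < b := by exact_mod_cast hb
  unfold Pool.Agent.V60.Gap.nw nn
  rw [ysh_zero hb0, ysh_zero hb0]

lemma measurable_nn {b : ℕ} (hb : 1 ≤ b) (p q : ℕ) : Measurable (nn b p q) := by
  have h := Pool.Agent.V60.Gap.measurable_nw b (fun _ => 0) p q
  have e : Pool.Agent.V60.Gap.nw b (fun _ => 0) p q = nn b p q := by
    funext t; exact nw_eq hb p q t
  rwa [e] at h

/-- near pairs -/
theorem near {b : ℕ} (hb : 2 ≤ b) (u v : ℝ) : ∃ K : ℝ, 0 < K ∧ ∃ P : ℕ, ∀ p ≥ P, ∀ q : ℕ,
    p < q ∧ q ≤ 2 * p → ∫ t in Set.Ioc u v,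
      ff p (p * Real.log b + t) * ff q (q * Real.log b + t) * nn b p q t ≤
        K * (Real.log p / p) ^ 2 := by
  have hb0 : (0 : ℝ) < b := by exact_mod_cast (by omega : 0 < b)
  have hb1 : (1 : ℝ) < b := by exact_mod_cast (by omega : 1 < b)
  have h0 : ∀ p q t, 0 ≤ ff p (p * Real.log b + t) * ff q (q * Real.log b + t) * nn b p q t := by
    intro p q t
    refine mul_nonneg (mul_nonneg (ff_nonneg _ _) (ff_nonneg _ _)) ?_
    rcases nn01 b p q t with h | h <;> rw [h]; norm_num
  refine windows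
    (F := fun p q t => ff p (p * Real.log b + t) * ff q (q * Real.log b + t) * nn b p q t) h0
    (fun p q u v => ?_) (D := fun p q => p < q ∧ q ≤ 2 * p)
    (M := fun p _ => (Real.log p / p) ^ 2) (fun p q => sq_nonneg _) (fun b0 => ?_) u v
  · refine Measure.integrableOn_of_bounded (M := 1) (by simp)
      ((((measurable_ff p).comp (by fun_prop)).mul ((measurable_ff q).comp (by fun_prop))).mul
        (measurable_nn (by omega) p q)).aestronglyMeasurable ?_
    refine Eventually.of_forall fun t => ?_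
    rw [Real.norm_of_nonneg (h0 p q t)]
    refine mul_le_one₀ (mul_le_one₀ (ff_le_one _ _) (ff_nonneg _ _) (ff_le_one _ _)) ?_ ?_
    · rcases nn01 b p q t with h | h <;> rw [h]; norm_num
    · rcases nn01 b p q t with h | h <;> rw [h]; norm_num
  · obtain ⟨K, hK, N, h⟩ := Pool.Agent.V60.Gap.near_new hb (κ := 1) (C := 1) zero_le_one hb1
      (g := fun _ => 0) (fun p => by simp) b0
    refine ⟨K, hK, N, fun p hp q hD => ?_⟩
    have h1 := h p hp q hD.1 hD.2
    simp only [nw_eq (show 1 ≤ b by omega), ff_zero hb0] at h1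
    exact h1

/-- one index: from unit windows to all windows -/
lemma windows1 {F : ℕ → ℝ → ℝ} (hF0 : ∀ p t, 0 ≤ F p t)
    (hFi : ∀ p (u v : ℝ), IntegrableOn (F p) (Set.Ioc u v)) {M : ℕ → ℝ}
    (h : ∀ b0 : ℝ, ∀ᶠ p : ℕ in atTop, ∫ t in Set.Ioc b0 (b0 + 1), F p t ≤ M p) (u v : ℝ) :
    ∃ n : ℕ, ∀ᶠ p : ℕ in atTop, ∫ t in Set.Ioc u v, F p t ≤ n * M p := by
  obtain ⟨n, hn⟩ := exists_nat_ge (v - u)
  have key : ∀ n : ℕ, ∀ᶠ p : ℕ in atTop, ∫ t in Set.Ioc u (u + n), F p t ≤ n * M p := by
    intro n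
    induction n with
    | zero =>
      refine Eventually.of_forall fun p => ?_
      simp
    | succ n ih =>
      filter_upwards [ih, h (u + n)] with p h1 h2
      have e : Set.Ioc u (u + ((n + 1 : ℕ) : ℝ)) = Set.Ioc u (u + n) ∪ Set.Ioc (u + n) (u + n + 1) := by
        rw [Set.Ioc_union_Ioc_eq_Ioc (by linarith [Nat.cast_nonneg (α := ℝ) n]) (by linarith)]
        congr 1
        push_cast; ring
      rw [e, setIntegral_union (Set.Ioc_disjoint_Ioc_of_le le_rfl) measurableSet_Ioc (hFi _ _ _)
        (hFi _ _ _)]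
      push_cast
      linarith
  refine ⟨n, ?_⟩
  filter_upwards [key n] with p hp
  refine le_trans ?_ hp
  exact setIntegral_mono_set (hFi _ _ _) (Eventually.of_forall fun t => hF0 p t)
    (Set.Ioc_subset_Ioc le_rfl (by linarith)).eventuallyLE

/-- the bad part is negligible -/
theorem bad_small {b : ℕ} (hb : 2 ≤ b) (u v : ℝ) {ε : ℝ} (hε : 0 < ε) : ∀ᶠ p : ℕ in atTop,
    (volume.restrict (Set.Ioc u v)).real {t | bad b p (p * Real.log b + t)} ≤
      ε * (Real.log p / p) := by
  classical
  have hb0 : (0 : ℝ) < b := by exact_mod_cast (by omega : 0 < b)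
  have hb1 : (1 : ℝ) < b := by exact_mod_cast (by omega : 1 < b)
  have hL : 0 < Real.log b := Real.log_pos hb1
  have hmeas : ∀ p : ℕ, MeasurableSet {t : ℝ | bad b p (p * Real.log b + t)} := fun p =>
    (measurableSet_bad b p).preimage (by fun_prop : Measurable fun t : ℝ => (p : ℝ) * Real.log b + t)
  have hfm : ∀ p : ℕ, Measurable fun t : ℝ => if bad b p (p * Real.log b + t) then (1 : ℝ) else 0 :=
    fun p => Measurable.ite (hmeas p) measurable_const measurable_const
  obtain ⟨n, hn⟩ := windows1 (F := fun p t => if bad b p (p * Real.log b + t) then (1 : ℝ) else 0)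
    (fun p t => by split_ifs <;> norm_num) (fun p u v => by
      refine Measure.integrableOn_of_bounded (M := 1) (by simp) (hfm p).aestronglyMeasurable ?_
      refine Eventually.of_forall fun t => ?_
      split_ifs <;> norm_num)
    (M := fun p => 32 * Real.exp (-(3 * Real.log b / 32 * p))) (fun b0 => by
      have h := Pool.Agent.W66V.large_part hb1 zero_le_one hb1 (C := 1) (g := fun _ => 0)
        (fun p => by simp) b0
      filter_upwards [h] with p hp
      simp only [ysh_zero hb0] at hp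
      exact hp) u v
  have hsm := (Pool.Agent.V1193.FM.exp_small (c := 3 * Real.log b / 32) (by positivity)).const_mul
    ((n : ℝ) * 32)
  rw [mul_zero] at hsm
  filter_upwards [hn, hsm.eventually_le_const hε, eventually_ge_atTop 3] with p h1 h2 h3
  have h3' : (3 : ℝ) ≤ p := by exact_mod_cast h3
  have hp0 : (0 : ℝ) < p := by linarith
  have hlog : 1 ≤ Real.log p := by
    rw [Real.le_log_iff_exp_le hp0]
    have := Real.exp_one_lt_d9
    linarith
  have e : (volume.restrict (Set.Ioc u v)).real {t | bad b p (p * Real.log b + t)} =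
      ∫ t in Set.Ioc u v, if bad b p (p * Real.log b + t) then (1 : ℝ) else 0 := by
    have e1 : (fun t : ℝ => if bad b p (p * Real.log b + t) then (1 : ℝ) else 0) =
        ({t | bad b p (p * Real.log b + t)}).indicator (fun _ => (1 : ℝ)) := by
      funext t
      rw [Set.indicator_apply]
      rfl
    rw [e1, integral_indicator_const _ (hmeas p), smul_eq_mul, mul_one]
  rw [e]
  refine h1.trans ?_
  set X := Real.exp (-(3 * Real.log b / 32 * p)) with hX
  have hX0 : 0 ≤ X := (Real.exp_pos _).le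
  have hn0 : (0 : ℝ) ≤ (n : ℝ) * 32 * X := by positivity
  have h4 : (n : ℝ) * 32 * X * p ^ 2 ≤ ε := by
    calc (n : ℝ) * 32 * X * p ^ 2 = n * 32 * ((p : ℝ) ^ 2 * X) := by ring
      _ ≤ ε := h2
  rw [mul_div_assoc', le_div_iff₀ hp0]
  calc (n : ℝ) * (32 * X) * p = (n * 32 * X * p) * 1 := by ring
    _ ≤ (n * 32 * X * p) * p := by gcongr; linarith
    _ = n * 32 * X * p ^ 2 := by ring
    _ ≤ ε := h4
    _ ≤ ε * Real.log p := by nlinarith

/-- a prime factor between `p` and `2 p` makes the value bad -/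
lemma bad_of {b p q : ℕ} (hb : 2 ≤ b) {y : ℝ} (hpr : (roughPart p (NN y)).Prime)
    (hle : roughPart p (NN y) ≤ q) (hlarge : q * (Real.exp (Real.log b * p / 4) + 1) ≤ (NN y : ℝ)) :
    bad b p y := by
  refine ⟨hpr, ?_⟩
  set m := NN y with hm
  set l := roughPart p m with hl
  obtain ⟨-, s, hs, he⟩ := roughPart_prime hpr
  have hdiv : m / l = s := by
    rw [he]
    exact Nat.mul_div_cancel _ hpr.pos
  rw [hdiv]
  have hq0 : (0 : ℝ) < q := by
    have : 0 < q := lt_of_lt_of_le hpr.pos hle
    exact_mod_cast this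
  have h1 : (m : ℝ) = s * l := by
    have : (m : ℕ) = s * l := he
    exact_mod_cast this
  have h2 : (l : ℝ) ≤ q := by exact_mod_cast hle
  have h3 : (m : ℝ) ≤ s * q := by
    rw [h1]
    exact mul_le_mul_of_nonneg_left h2 (Nat.cast_nonneg s)
  have h4 : (q : ℝ) * Real.exp (Real.log b * p / 4) ≤ q * s := by
    rw [mul_comm (q : ℝ) s]
    have : (q : ℝ) * Real.exp (Real.log b * p / 4) ≤ q * (Real.exp (Real.log b * p / 4) + 1) := by
      gcongr; linarith
    linarith
  exact le_of_mul_le_mul_left h4 hq0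

/-- the rough part of the product with a power of the base -/
lemma rough_next {b p q h m : ℕ} (hb : 1 ≤ b) (hbq : b ≤ q) (hpq : p ≤ q)
    (hpr : (roughPart p m).Prime) (hlt : q < roughPart p m) :
    (roughPart q (b ^ h * m)).Prime := by
  rw [Pool.Agent.V60.Gap.rough_pow_mul hb hbq]
  have hm0 : m ≠ 0 := by
    rintro rfl
    simp [roughPart, Nat.not_prime_one] at hpr
  have e : m.primeFactorsList.filter (fun r => q < r) = m.primeFactorsList.filter (fun r => p < r) := by
    refine List.filter_congr fun r hr => ?_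
    by_cases h1 : p < r
    · have h2 : r ∣ roughPart p m := by
        unfold roughPart
        exact List.dvd_prod (List.mem_filter.2 ⟨hr, by simpa using h1⟩)
      have h3 := (Nat.prime_dvd_prime_iff_eq (Nat.prime_of_mem_primeFactorsList hr) hpr).1 h2
      have h4 : q < r := by rw [h3]; exact hlt
      simp [h1, h4]
    · have h4 : ¬ q < r := by omega
      simp [h1, h4]
  unfold roughPart at hpr ⊢
  rw [e]
  exact hpr

end Pool.Agent.V1193.RU
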