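import Pool.Agent.V1193.RU.B

set_option autoImplicit false

/-! An integer base: zero blocks and new pairs. -/

namespace Pool.Agent.V1193.RU

open Finset Filter Topology MeasureTheory
open Pool.Agent.H305R2 (NN roughPart measurable_NN ff measurable_ff ff_nonneg ff_le_one mem_Ioc_log
  roughPart_prime)
open Pool.Agent.W66V (bad measurableSet_bad)
open Pool.Agent.V1193.GR (combine far_pair fam_ff AE AE_empty full_of
  AE_sub meas_AE real01 wt_mem wt_not wt_pos mass_A)
open Pool.Agent.V1193.BP (ff01 shift_int mul01)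
open Pool.Agent.V1193.LE (wt wt_nonneg T T_nonneg summable_T T_tendsto T_anti)

/-- `p x + t` in the first part of its cell -/
def ZE (θ x : ℝ) (p : ℕ) : Set ℝ := {t | zz θ (p * x + t) = 1}

lemma ff_cell (p : ℕ) : ∀ N : ℕ, 1 ≤ N → ∃ s : ℝ,
    ∀ t ∈ Set.Ioc (Real.log N) (Real.log ((N + 1 : ℕ) : ℝ)), ff p t = s := by
  intro N hN
  refine ⟨if (roughPart p N).Prime then 1 else 0, fun t ht => ?_⟩
  have hNN : NN t = N := (mem_Ioc_log hN).1 ht
  unfold ff
  rw [hNN]

lemma zz_mono {θ θ' y : ℝ} (h : θ ≤ θ') (hz : zz θ y = 1) : zz θ' y = 1 := by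
  unfold zz at hz ⊢
  have h1 : Real.exp y ≤ NN y + θ := by
    by_contra h2
    rw [if_neg h2] at hz
    exact zero_ne_one hz
  rw [if_pos (by linarith)]

lemma log_ge_one {p : ℕ} (h3 : 3 ≤ p) : 1 ≤ Real.log p := by
  have h3' : (3 : ℝ) ≤ p := by exact_mod_cast h3
  rw [Real.le_log_iff_exp_le (by linarith)]
  have := Real.exp_one_lt_d9
  linarith

/-- a square over an exponential is smaller than the weight -/
lemma small_wt {X ε : ℝ} {p : ℕ} (h3 : 3 ≤ p) (hX : (p : ℝ) ^ 2 * X ≤ ε) (hX0 : 0 ≤ X) :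
    X ≤ ε * (Real.log p / p) := by
  have h3' : (3 : ℝ) ≤ p := by exact_mod_cast h3
  have hp0 : (0 : ℝ) < p := by linarith
  have hl := log_ge_one h3
  have hε : 0 ≤ ε := le_trans (by positivity) hX
  rw [mul_div_assoc', le_div_iff₀ hp0]
  have h1 : X * p ≤ (p : ℝ) ^ 2 * X := by nlinarith [mul_nonneg hX0 hp0.le]
  nlinarith

/-- **Zero blocks.** -/
theorem block_mass {x : ℝ} (hx : 0 < x) {u v : ℝ} (huv : u < v) (S : Set ℕ) :
    ∀ ε > 0, ∀ᶠ p : ℕ in atTop, ∀ θ : ℝ, 0 ≤ θ → θ ≤ 1 →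
      |(volume.restrict (Set.Ioc u v)).real (AE S x p ∩ ZE θ x p) -
        θ * (volume.restrict (Set.Ioc u v)).real (AE S x p)| ≤ ε * wt S p := by
  intro ε hε
  have hsm := (Pool.Agent.V1193.FM.exp_small (c := x) hx).const_mul (6 * Real.exp (-u))
  rw [mul_zero] at hsm
  have hU : ∀ᶠ p : ℕ in atTop, (1 - u) / x ≤ (p : ℝ) :=
    tendsto_natCast_atTop_atTop.eventually_ge_atTop _
  filter_upwards [hsm.eventually_le_const hε, hU, eventually_ge_atTop 3] with p h1 h2 h3 θ hθ0 hθ1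
  rw [div_le_iff₀ hx] at h2
  by_cases hp : p ∈ S
  · have hfm : Measurable fun t : ℝ => ff p (p * x + t) := (measurable_ff p).comp (by fun_prop)
    have hzm : Measurable fun t : ℝ => zz θ (p * x + t) := (measurable_zz θ).comp (by fun_prop)
    have e2 : (volume.restrict (Set.Ioc u v)).real (AE S x p) =
        ∫ t in Set.Ioc u v, ff p (p * x + t) := by
      unfold AE
      rw [full_of hp, real01 (a := fun t => ff p (p * x + t)) hfm (fun t => ff01 _ _)]
    have e1 : (volume.restrict (Set.Ioc u v)).real (AE S x p ∩ ZE θ x p) =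
        ∫ t in Set.Ioc u v, ff p (p * x + t) * zz θ (p * x + t) := by
      rw [← real01 (a := fun t => ff p (p * x + t) * zz θ (p * x + t)) (hfm.mul hzm)
        (fun t => mul01 (ff01 _ _) (zz01 _ _))]
      congr 1
      ext t
      constructor
      · rintro ⟨⟨-, h4⟩, h5⟩
        show ff p (p * x + t) * zz θ (p * x + t) = 1
        rw [h4, show zz θ (p * x + t) = 1 from h5, one_mul]
      · intro h4
        have h4' : ff p (p * x + t) * zz θ (p * x + t) = 1 := h4
        rcases ff01 p (p * x + t) with h5 | h5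
        · rw [h5, zero_mul] at h4'
          exact absurd h4' zero_ne_one
        · rw [h5, one_mul] at h4'
          exact ⟨⟨hp, h5⟩, h4'⟩
    have hi1 : IntegrableOn (fun t => ff p (p * x + t) * zz θ (p * x + t)) (Set.Ioc u v) := by
      refine Measure.integrableOn_of_bounded (M := 1) (by simp)
        (hfm.mul hzm).aestronglyMeasurable (Eventually.of_forall fun t => ?_)
      rw [Real.norm_of_nonneg (mul_nonneg (ff_nonneg _ _) (zz_nonneg _ _))]
      exact mul_le_one₀ (ff_le_one _ _) (zz_nonneg _ _) (zz_le_one _ _)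
    have hi2 : IntegrableOn (fun t => ff p (p * x + t)) (Set.Ioc u v) := by
      refine Measure.integrableOn_of_bounded (M := 1) (by simp)
        hfm.aestronglyMeasurable (Eventually.of_forall fun t => ?_)
      rw [Real.norm_of_nonneg (ff_nonneg _ _)]
      exact ff_le_one _ _
    have e3 : (volume.restrict (Set.Ioc u v)).real (AE S x p ∩ ZE θ x p) -
        θ * (volume.restrict (Set.Ioc u v)).real (AE S x p) =
        ∫ y in Set.Ioc (p * x + u) (p * x + v), ff p y * (zz θ y - θ) := by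
      rw [e1, e2, ← integral_const_mul, ← integral_sub hi1 (hi2.const_mul θ),
        ← shift_int (fun y => ff p y * (zz θ y - θ)) huv.le]
      refine integral_congr_ae (Eventually.of_forall fun t => ?_)
      simp only
      ring
    rw [e3, wt_mem hp]
    refine (block (fun t => ff_nonneg p t) (fun t => ff_le_one p t) (measurable_ff p) (ff_cell p)
      hθ0 hθ1 (U := p * x + u) (V := p * x + v) (by linarith) (by linarith)).trans ?_
    refine small_wt h3 ?_ (by positivity)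
    rw [neg_add, Real.exp_add]
    calc (p : ℝ) ^ 2 * (6 * (Real.exp (-(p * x)) * Real.exp (-u))) =
        6 * Real.exp (-u) * ((p : ℝ) ^ 2 * Real.exp (-(x * p))) := by
          rw [mul_comm (p : ℝ) x]; ring
      _ ≤ ε := h1
  · rw [AE_empty p hp, wt_not hp]
    simp

/-- the integers are large -/
lemma large {b : ℕ} (hb : 2 ≤ b) (u : ℝ) : ∀ᶠ p : ℕ in atTop, ∀ q : ℕ, q ≤ 2 * p → ∀ t, u < t →
    (q : ℝ) * (Real.exp (Real.log b * p / 4) + 1) ≤ (NN (p * Real.log b + t) : ℝ) := by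
  have hb1 : (1 : ℝ) < b := by exact_mod_cast (by omega : 1 < b)
  have hL : 0 < Real.log b := Real.log_pos hb1
  have hsm := (Pool.Agent.V1193.FM.exp_small (c := 3 * Real.log b / 4) (by positivity)).const_mul
    (5 * Real.exp (-u))
  rw [mul_zero] at hsm
  filter_upwards [hsm.eventually_le_const one_pos, eventually_ge_atTop 1] with p h1 h2 q hq t ht
  have hp1 : (1 : ℝ) ≤ p := by exact_mod_cast h2
  have hq' : (q : ℝ) ≤ 2 * p := by exact_mod_cast hq
  have hq0 : (0 : ℝ) ≤ q := Nat.cast_nonneg q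
  set X := Real.exp (Real.log b * p / 4) with hX
  have hX1 : 1 ≤ X := Real.one_le_exp (by positivity)
  have hX3 : Real.exp (-(3 * Real.log b / 4 * p)) = (X ^ 3)⁻¹ := by
    rw [hX, ← Real.exp_nat_mul, ← Real.exp_neg]
    congr 1
    push_cast
    ring
  rw [hX3] at h1
  have hX0 : 0 < X ^ 3 := by positivity
  have hu : Real.exp (-u) * Real.exp u = 1 := by rw [← Real.exp_add]; simp
  have h3 : 5 * (p : ℝ) ^ 2 ≤ X ^ 3 * Real.exp u := by
    have h4 : 5 * Real.exp (-u) * ((p : ℝ) ^ 2 * (X ^ 3)⁻¹) * (X ^ 3 * Real.exp u) ≤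
        1 * (X ^ 3 * Real.exp u) := mul_le_mul_of_nonneg_right h1 (by positivity)
    have h5 : 5 * Real.exp (-u) * ((p : ℝ) ^ 2 * (X ^ 3)⁻¹) * (X ^ 3 * Real.exp u) =
        5 * (p : ℝ) ^ 2 * (X ^ 3 * (X ^ 3)⁻¹) * (Real.exp (-u) * Real.exp u) := by ring
    rw [h5, hu, mul_inv_cancel₀ hX0.ne'] at h4
    linarith
  have h6 : X ^ 4 * Real.exp u ≤ Real.exp (p * Real.log b + t) := by
    rw [hX, ← Real.exp_nat_mul, ← Real.exp_add]
    refine Real.exp_le_exp.2 ?_
    push_cast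
    linarith
  have h7 : Real.exp (p * Real.log b + t) - 1 ≤ (NN (p * Real.log b + t) : ℝ) := by
    unfold NN
    have hc : 0 < ⌈Real.exp (p * Real.log b + t)⌉₊ := Nat.ceil_pos.2 (Real.exp_pos _)
    rw [Nat.cast_sub (by omega)]
    have := Nat.le_ceil (Real.exp (p * Real.log b + t))
    push_cast
    linarith
  have h8 : 5 * (p : ℝ) ^ 2 * X ≤ X ^ 4 * Real.exp u := by
    calc 5 * (p : ℝ) ^ 2 * X ≤ X ^ 3 * Real.exp u * X :=
          mul_le_mul_of_nonneg_right h3 (by linarith)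
      _ = _ := by ring
  have h9 : (q : ℝ) * (X + 1) ≤ 4 * p * X := by
    calc (q : ℝ) * (X + 1) ≤ (2 * p) * (2 * X) :=
          mul_le_mul hq' (by linarith) (by linarith) (by linarith)
      _ = _ := by ring
  have h10 : 4 * p * X + 1 ≤ 5 * (p : ℝ) ^ 2 * X := by
    have h11 : 1 ≤ p * X := one_le_mul_of_one_le_of_one_le hp1 hX1
    have h12 : p * X ≤ (p : ℝ) ^ 2 * X := by
      have : (p : ℝ) ≤ (p : ℝ) ^ 2 := by nlinarith
      exact mul_le_mul_of_nonneg_right this (by linarith)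
    nlinarith
  linarith

/-- the pair does not come from a zero block, or is far -/
noncomputable def mn (b p q : ℕ) (t : ℝ) : ℝ := if q ≤ 2 * p then nn b p q t else 1

lemma mn01 (b p q : ℕ) (t : ℝ) : mn b p q t = 0 ∨ mn b p q t = 1 := by
  unfold mn
  split_ifs
  · exact nn01 b p q t
  · exact Or.inr rfl

lemma measurable_mn {b : ℕ} (hb : 1 ≤ b) (p q : ℕ) : Measurable (mn b p q) := by
  unfold mn
  split_ifs
  · exact measurable_nn hb p q
  · exact measurable_const

theorem pair_new {b : ℕ} (hb : 2 ≤ b) {u v : ℝ} (huv : u < v) :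
    ∃ K : ℝ, 0 < K ∧ ∃ N : ℕ, ∀ p ≥ N, ∀ q : ℕ, p < q →
      ∫ t in Set.Ioc u v, ff p (p * Real.log b + t) * ff q (q * Real.log b + t) * mn b p q t ≤
        K * ((Real.log p / p) * (Real.log q / q)) := by
  have hb1 : (1 : ℝ) < b := by exact_mod_cast (by omega : 1 < b)
  have h1 := near hb u v
  have h2 := far_pair fam_ff fam_ff (Real.log_pos hb1) 0 0 huv
  simp only [add_zero] at h2
  obtain ⟨K, hK, N, h⟩ := combine (D := fun p q => p < q)
    (F := fun p q t => ff p (p * Real.log b + t) * ff q (q * Real.log b + t) * mn b p q t)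
    (by
      obtain ⟨K, hK, N, h⟩ := h1
      refine ⟨K, hK, N, fun p hp q hD => ?_⟩
      have h3 := h p hp q ⟨hD.1, hD.2.2⟩
      simpa only [mn, if_pos hD.2.2] using h3)
    (by
      obtain ⟨K, hK, N, h⟩ := h2
      refine ⟨K, hK, N, fun p hp q hD => ?_⟩
      have h3 := h p hp q hD
      simpa only [mn, if_neg (by omega : ¬ q ≤ 2 * p), mul_one] using h3)
  exact ⟨K, hK, N, fun p hp q hq => h p hp q hq hq.le⟩

/-- new pairs of lengths -/
def ND (S : Set ℕ) (b p q : ℕ) : Set ℝ :=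
  {t | t ∈ AE S (Real.log b) p ∧ t ∈ AE S (Real.log b) q ∧ mn b p q t = 1}

theorem pair_ND {b : ℕ} (hb : 2 ≤ b) {u v : ℝ} (huv : u < v) (S : Set ℕ) :
    ∃ K : ℝ, 0 ≤ K ∧ ∃ N : ℕ, ∀ p ≥ N, ∀ q > p,
      (volume.restrict (Set.Ioc u v)).real (ND S b p q) ≤ K * wt S p * wt S q := by
  obtain ⟨K, hK, N, h⟩ := pair_new hb huv
  refine ⟨K, hK.le, N, fun p hp q hq => ?_⟩
  by_cases hS : p ∈ S ∧ q ∈ S
  · rw [wt_mem hS.1, wt_mem hS.2, mul_assoc]
    refine le_trans ?_ (h p hp q hq)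
    rw [← real01 (a := fun t => ff p (p * Real.log b + t) * ff q (q * Real.log b + t) * mn b p q t)
      ((((measurable_ff p).comp (by fun_prop)).mul ((measurable_ff q).comp (by fun_prop))).mul
        (measurable_mn (by omega) p q)) (fun t => mul01 (mul01 (ff01 _ _) (ff01 _ _)) (mn01 _ _ _ _))]
    refine measureReal_mono ?_
    rintro t ⟨h1, h2, h3⟩
    show ff p (p * Real.log b + t) * ff q (q * Real.log b + t) * mn b p q t = 1
    rw [h1.2, h2.2, h3]
    norm_num
  · have e : ND S b p q = ∅ := by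
      ext t
      simp only [Set.mem_empty_iff_false, iff_false]
      rintro ⟨h1, h2, -⟩
      exact hS ⟨h1.1, h2.1⟩
    rw [e]
    simp only [measureReal_empty]
    exact mul_nonneg (mul_nonneg hK.le (wt_nonneg _ _)) (wt_nonneg _ _)

/-! ### Sums over pairs -/

section pairs

variable {Ω : Type*} [MeasurableSpace Ω] {μ : Measure Ω} [IsFiniteMeasure μ]

lemma over_sum {D : ℕ → ℕ → Set Ω} {w : ℕ → ℝ} {K : ℝ} {N : ℕ}
    (hw : ∀ p, 0 ≤ w p) (hs : Summable w) (hK : 0 ≤ K)
    (hpair : ∀ p ≥ N, ∀ q > p, μ.real (D p q) ≤ K * w p * w q) {p : ℕ} (hp : N ≤ p) :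
    μ (⋃ k : ℕ, D p (p + 1 + k)) ≤ ENNReal.ofReal (K * w p * T w (p + 1)) := by
  have h0 : 0 ≤ K * w p := mul_nonneg hK (hw p)
  refine (measure_iUnion_le _).trans ?_
  unfold T
  rw [← tsum_mul_left, ENNReal.ofReal_tsum_of_nonneg (fun k => mul_nonneg h0 (hw _))
    ((summable_T hs (p + 1)).mul_left _)]
  refine ENNReal.tsum_le_tsum fun k => ?_
  rw [← ENNReal.ofReal_toReal (measure_ne_top μ (D p (p + 1 + k)))]
  exact ENNReal.ofReal_le_ofReal (hpair p hp (p + 1 + k) (by omega))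

theorem two_sum {D : ℕ → ℕ → Set Ω} {w : ℕ → ℝ} {K : ℝ} {N : ℕ}
    (hw : ∀ p, 0 ≤ w p) (hs : Summable w) (hK : 0 ≤ K)
    (hpair : ∀ p ≥ N, ∀ q > p, μ.real (D p q) ≤ K * w p * w q) {n : ℕ} (hn : N ≤ n) :
    μ.real {y | ∃ p q, n ≤ p ∧ p < q ∧ y ∈ D p q} ≤ K * T w n ^ 2 := by
  have hT := T_nonneg hw n
  have hsub : {y | ∃ p q, n ≤ p ∧ p < q ∧ y ∈ D p q} ⊆
      ⋃ j : ℕ, ⋃ k : ℕ, D (n + j) (n + j + 1 + k) := by
    rintro y ⟨p, q, h1, h2, h3⟩
    refine Set.mem_iUnion.2 ⟨p - n, Set.mem_iUnion.2 ⟨q - (p + 1), ?_⟩⟩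
    rw [show n + (p - n) = p by omega, show p + 1 + (q - (p + 1)) = q by omega]
    exact h3
  rw [Measure.real]
  refine ENNReal.toReal_le_of_le_ofReal (by positivity) ?_
  refine (measure_mono hsub).trans ((measure_iUnion_le _).trans ?_)
  have e : K * T w n ^ 2 = ∑' j : ℕ, K * T w n * w (n + j) := by
    rw [tsum_mul_left, sq]
    unfold T
    ring
  rw [e, ENNReal.ofReal_tsum_of_nonneg (fun j => mul_nonneg (mul_nonneg hK hT) (hw _))
    ((summable_T hs n).mul_left _)]
  refine ENNReal.tsum_le_tsum fun j => ?_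
  refine (over_sum hw hs hK hpair (by omega)).trans (ENNReal.ofReal_le_ofReal ?_)
  have h5 := T_anti hw hs (show n ≤ n + j + 1 by omega)
  calc K * w (n + j) * T w (n + j + 1) ≤ K * w (n + j) * T w n :=
        mul_le_mul_of_nonneg_left h5 (mul_nonneg hK (hw _))
    _ = _ := by ring

end pairs

/-! ### The elements after a given one -/

/-- the `j`-th element of `S` after `p` -/
noncomputable def nxt (S : Set ℕ) (p : ℕ) : ℕ → ℕ
  | 0 => p
  | j + 1 => sInf {q | q ∈ S ∧ nxt S p j < q}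

lemma nxt_mem {S : Set ℕ} (hinf : S.Infinite) (p j : ℕ) :
    nxt S p (j + 1) ∈ S ∧ nxt S p j < nxt S p (j + 1) := by
  have h : ({q | q ∈ S ∧ nxt S p j < q} : Set ℕ).Nonempty := by
    obtain ⟨q, h1, h2⟩ := hinf.exists_gt (nxt S p j)
    exact ⟨q, h1, h2⟩
  exact Nat.sInf_mem h

lemma nxt_le {S : Set ℕ} {p j q : ℕ} (hq : q ∈ S) (h : nxt S p j < q) : nxt S p (j + 1) ≤ q :=
  Nat.sInf_le ⟨hq, h⟩

lemma nxt_mono {S : Set ℕ} (hinf : S.Infinite) (p : ℕ) : StrictMono (nxt S p) :=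
  strictMono_nat_of_lt_succ fun j => (nxt_mem hinf p j).2

lemma le_nxt {S : Set ℕ} (hinf : S.Infinite) (p j : ℕ) : p + j ≤ nxt S p j := by
  induction j with
  | zero => exact le_rfl
  | succ j ih => have := (nxt_mem hinf p j).2; omega

lemma few {S : Set ℕ} (p j : ℕ) : {q | q ∈ S ∧ p < q ∧ q < nxt S p (j + 1)}.encard ≤ j := by
  induction j with
  | zero =>
    have : {q | q ∈ S ∧ p < q ∧ q < nxt S p (0 + 1)} = ∅ := by
      ext q
      simp only [Set.mem_ofPred_eq, Set.mem_empty_iff_false, iff_false, not_and, not_lt]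
      intro h1 h2
      exact nxt_le (p := p) (j := 0) h1 h2
    rw [this]
    simp
  | succ j ih =>
    have hsub : {q | q ∈ S ∧ p < q ∧ q < nxt S p (j + 1 + 1)} ⊆
        insert (nxt S p (j + 1)) {q | q ∈ S ∧ p < q ∧ q < nxt S p (j + 1)} := by
      rintro q ⟨h1, h2, h3⟩
      rcases lt_trichotomy q (nxt S p (j + 1)) with h4 | h4 | h4
      · exact Or.inr ⟨h1, h2, h4⟩
      · exact Or.inl h4
      · have := nxt_le (p := p) (j := j + 1) h1 h4
        omega
    refine (Set.encard_le_encard hsub).trans ((Set.encard_insert_le _ _).trans ?_)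
    push_cast
    gcongr

lemma exists_ge {S A : Set ℕ} {p j : ℕ} (hA : ∀ q ∈ A, q ∈ S ∧ p < q)
    (h : ((j + 1 : ℕ) : ℕ∞) ≤ A.encard) : ∃ q ∈ A, nxt S p (j + 1) ≤ q := by
  by_contra hc
  push Not at hc
  have hsub : A ⊆ {q | q ∈ S ∧ p < q ∧ q < nxt S p (j + 1)} :=
    fun q hq => ⟨(hA q hq).1, (hA q hq).2, hc q hq⟩
  have h1 := h.trans ((Set.encard_le_encard hsub).trans (few p j))
  have h2 : j + 1 ≤ j := by exact_mod_cast h1
  omega

lemma many {S A : Set ℕ} (hinf : S.Infinite) {p j : ℕ}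
    (hA : ∀ q, q ∈ S → p < q → q ≤ nxt S p j → q ∈ A) : (j : ℕ∞) ≤ A.encard := by
  have hsub : (fun i => nxt S p (i + 1)) '' (Finset.range j : Set ℕ) ⊆ A := by
    rintro q ⟨i, hi, rfl⟩
    have hi' : i < j := by simpa using hi
    refine hA _ (nxt_mem hinf p i).1 ?_ ?_
    · have h := le_nxt hinf p (i + 1)
      show p < nxt S p (i + 1)
      omega
    · exact (nxt_mono hinf p).monotone (by omega)
  have hinj : Function.Injective (fun i => nxt S p (i + 1)) := by
    intro a c h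
    have := (nxt_mono hinf p).injective h
    omega
  have h1 := Set.encard_le_encard hsub
  rw [hinj.encard_image, Set.encard_coe_eq_coe_finsetCard, Finset.card_range] at h1
  exact h1

end Pool.Agent.V1193.RU
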