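import Pool.Agent.V1193.RU.C

set_option autoImplicit false

/-! An integer base: the number of later lengths. -/

namespace Pool.Agent.V1193.RU

open Finset Filter Topology MeasureTheory
open Pool.Agent.H305R2 (NN roughPart measurable_NN ff measurable_ff ff_nonneg ff_le_one mem_Ioc_log
  roughPart_prime)
open Pool.Agent.W66V (bad measurableSet_bad)
open Pool.Agent.V1193.GR (AE AE_empty AE_sub meas_AE wt_mem wt_not wt_pos mass_A real_win NA mem_A)
open Pool.Agent.V1193.BP (ff01 shift_int mul01 exp_arg)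
open Pool.Agent.V1193.LE (wt wt_nonneg T T_nonneg summable_T T_tendsto T_anti average Last last_eq
  last_meas tail_eq mean_eq)

/-- at least `j` later lengths -/
def LJ (S : Set ℕ) (b j p : ℕ) : Set ℝ :=
  {t | t ∈ AE S (Real.log b) p ∧ (j : ℕ∞) ≤ {q | p < q ∧ t ∈ AE S (Real.log b) q}.encard}

lemma ff_prime {p : ℕ} {y : ℝ} : ff p y = 1 ↔ (roughPart p (NN y)).Prime := by
  unfold ff
  split_ifs with h <;> simp [h]

/-- the probability of the zero block up to the `j`-th later element -/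
noncomputable def θ (b : ℕ) (S : Set ℕ) (p j : ℕ) : ℝ := ((b : ℝ) ^ (nxt S p j - p))⁻¹

lemma θ_nonneg (b : ℕ) (S : Set ℕ) (p j : ℕ) : 0 ≤ θ b S p j := by unfold θ; positivity

lemma θ_le_one {b : ℕ} (hb : 1 ≤ b) (S : Set ℕ) (p j : ℕ) : θ b S p j ≤ 1 := by
  have hb1 : (1 : ℝ) ≤ b := by exact_mod_cast hb
  exact inv_le_one_of_one_le₀ (one_le_pow₀ hb1)

lemma zz_of_pair {b : ℕ} (hb : 1 ≤ b) {p q : ℕ} (hpq : p ≤ q) (t : ℝ) :
    zz (((b : ℝ) ^ (q - p))⁻¹) (p * Real.log b + t) = 1 ↔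
      NN (q * Real.log b + t) = b ^ (q - p) * NN (p * Real.log b + t) := by
  have h := zz_iff hb (x := Real.log b) rfl p (q - p) t
  rw [show p + (q - p) = q by omega] at h
  exact h

/-- the upper inclusion -/
lemma upper {b : ℕ} (hb : 2 ≤ b) {S : Set ℕ} (j p : ℕ) :
    LJ S b j p ⊆ (AE S (Real.log b) p ∩ ZE (θ b S p j) (Real.log b) p) ∪
      ⋃ k : ℕ, ND S b p (p + 1 + k) := by
  rintro t ⟨h1, h2⟩
  have hb1 : (1 : ℝ) ≤ b := by exact_mod_cast (by omega : 1 ≤ b)
  by_cases hnew : ∃ q, p < q ∧ t ∈ ND S b p q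
  · obtain ⟨q, hq, h3⟩ := hnew
    refine Or.inr (Set.mem_iUnion.2 ⟨q - (p + 1), ?_⟩)
    rwa [show p + 1 + (q - (p + 1)) = q by omega]
  · left
    refine ⟨h1, ?_⟩
    have key : ∀ q, p < q → t ∈ AE S (Real.log b) q →
        NN (q * Real.log b + t) = b ^ (q - p) * NN (p * Real.log b + t) := by
      intro q hq h3
      by_contra h4
      refine hnew ⟨q, hq, h1, h3, ?_⟩
      unfold mn nn
      rw [if_neg h4]
      simp
    show zz (θ b S p j) (p * Real.log b + t) = 1
    cases j with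
    | zero =>
      have h3 := (zz_of_pair (b := b) (by omega) (le_refl p) t).2 (by simp)
      unfold θ
      exact h3
    | succ j =>
      obtain ⟨q, hq, h4⟩ := exists_ge (S := S) (p := p) (j := j)
        (A := {q | p < q ∧ t ∈ AE S (Real.log b) q}) (fun q hq => ⟨hq.2.1, hq.1⟩) h2
      have h5 := (zz_of_pair (b := b) (by omega) hq.1.le t).2 (key q hq.1 hq.2)
      refine zz_mono ?_ h5
      unfold θ
      have h6 : (0 : ℝ) < (b : ℝ) ^ (nxt S p (j + 1) - p) := by positivity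
      exact inv_anti₀ h6 (pow_le_pow_right₀ hb1 (by omega))

/-- the lower inclusion -/
lemma lower {b : ℕ} (hb : 2 ≤ b) {S : Set ℕ} (hinf : S.Infinite) {j p : ℕ} (hbp : b ≤ p) {u : ℝ}
    (hlarge : ∀ q : ℕ, q ≤ 2 * p → ∀ t, u < t →
      (q : ℝ) * (Real.exp (Real.log b * p / 4) + 1) ≤ (NN (p * Real.log b + t) : ℝ))
    (hj : nxt S p j ≤ 2 * p) {t : ℝ} (ht : u < t)
    (h : t ∈ AE S (Real.log b) p ∩ ZE (θ b S p j) (Real.log b) p) :
    t ∈ LJ S b j p ∪ {t | bad b p (p * Real.log b + t)} := by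
  obtain ⟨h1, h2⟩ := h
  have hb1 : (1 : ℝ) ≤ b := by exact_mod_cast (by omega : 1 ≤ b)
  have hpr : (roughPart p (NN (p * Real.log b + t))).Prime := ff_prime.1 h1.2
  rcases le_or_gt (roughPart p (NN (p * Real.log b + t))) (nxt S p j) with h3 | h3
  · exact Or.inr (bad_of hb hpr h3 (hlarge _ hj t ht))
  · left
    refine ⟨h1, many hinf fun q hq hpq hqj => ⟨hpq, hq, ff_prime.2 ?_⟩⟩
    have h4 : NN (q * Real.log b + t) = b ^ (q - p) * NN (p * Real.log b + t) := by
      refine (zz_of_pair (b := b) (by omega) hpq.le t).1 (zz_mono ?_ h2)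
      unfold θ
      have h6 : (0 : ℝ) < (b : ℝ) ^ (q - p) := by positivity
      exact inv_anti₀ h6 (pow_le_pow_right₀ hb1 (by omega))
    rw [h4]
    exact rough_next (by omega) (by omega) hpq.le hpr (by omega)

/-- the constant -/
noncomputable def Cc (b : ℕ) (u v : ℝ) : ℝ :=
  Real.exp Real.eulerMascheroniConstant * (v - u) / Real.log b

lemma Cc_nonneg {b : ℕ} (hb : 2 ≤ b) {u v : ℝ} (huv : u < v) : 0 ≤ Cc b u v := by
  have hb1 : (1 : ℝ) < b := by exact_mod_cast (by omega : 1 < b)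
  have := Real.log_pos hb1
  unfold Cc
  have : 0 ≤ v - u := by linarith
  positivity

/-- **The number of later lengths.** -/
theorem later_mass {b : ℕ} (hb : 2 ≤ b) {u v : ℝ} (huv : u < v) {S : Set ℕ} (hinf : S.Infinite)
    (hs : Summable (wt S)) (j : ℕ) : ∀ ε > 0, ∀ᶠ p : ℕ in atTop,
    |(volume.restrict (Set.Ioc u v)).real (LJ S b j p) - Cc b u v * θ b S p j * wt S p| ≤
      ε * wt S p := by
  intro ε hε
  have hb1 : (1 : ℝ) < b := by exact_mod_cast (by omega : 1 < b)
  have hx : 0 < Real.log b := Real.log_pos hb1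
  have hC := Cc_nonneg hb huv
  set C := Cc b u v with hCdef
  obtain ⟨K, hK, N, hpair⟩ := pair_ND hb huv S
  have hT : ∀ᶠ p : ℕ in atTop, K * T (wt S) (p + 1) < ε / 4 := by
    have h2 := ((T_tendsto (w := wt S)).comp (tendsto_add_atTop_nat 1)).const_mul K
    rw [mul_zero] at h2
    exact h2.eventually_lt_const (by positivity)
  have hpow : ∀ᶠ p : ℕ in atTop, C * ((b : ℝ) ^ p)⁻¹ ≤ ε / 4 := by
    have h2 := ((tendsto_pow_atTop_nhds_zero_of_lt_one (r := (b : ℝ)⁻¹) (by positivity)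
      (inv_lt_one_of_one_lt₀ hb1)).const_mul C)
    rw [mul_zero] at h2
    filter_upwards [h2.eventually_le_const (show (0 : ℝ) < ε / 4 by positivity)] with p hp
    rwa [← inv_pow]
  filter_upwards [block_mass hx huv S (ε / 4) (by positivity),
    mass_A hx huv S (ε / 4) (by positivity), hT, hpow, bad_small hb u v
      (show (0 : ℝ) < ε / 4 by positivity), large hb u, eventually_ge_atTop (N + b)]
    with p h1 h2 h3 h4 h5 h6 h7
  by_cases hp : p ∈ S
  swap
  · have e : LJ S b j p = ∅ := by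
      ext t
      simp only [Set.mem_empty_iff_false, iff_false]
      rintro ⟨h8, -⟩
      exact hp h8.1
    rw [e, wt_not hp]
    simp
  set μ := volume.restrict (Set.Ioc u v) with hμ
  set x := Real.log b with hxdef
  set ϑ := θ b S p j with hϑ
  have hϑ0 : 0 ≤ ϑ := θ_nonneg _ _ _ _
  have hϑ1 : ϑ ≤ 1 := θ_le_one (by omega) _ _ _
  have hw := wt_nonneg S p
  have h8 := h1 ϑ hϑ0 hϑ1
  rw [← wt_mem hp] at h5
  -- the zero block
  have h2' : |μ.real (AE S x p) - C * wt S p| ≤ ε / 4 * wt S p := h2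
  have h9 : |μ.real (AE S x p ∩ ZE ϑ x p) - C * ϑ * wt S p| ≤ ε / 2 * wt S p := by
    have e : μ.real (AE S x p ∩ ZE ϑ x p) - C * ϑ * wt S p =
        (μ.real (AE S x p ∩ ZE ϑ x p) - ϑ * μ.real (AE S x p)) +
          ϑ * (μ.real (AE S x p) - C * wt S p) := by ring
    rw [e]
    refine (abs_add_le _ _).trans ?_
    rw [abs_mul, abs_of_nonneg hϑ0]
    have : ϑ * |μ.real (AE S x p) - C * wt S p| ≤ 1 * (ε / 4 * wt S p) :=
      mul_le_mul hϑ1 h2' (abs_nonneg _) zero_le_one
    linarith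
  -- upper bound
  have hup : μ.real (LJ S b j p) ≤ μ.real (AE S x p ∩ ZE ϑ x p) + ε / 4 * wt S p := by
    have h10 : μ.real (⋃ k : ℕ, ND S b p (p + 1 + k)) ≤ ε / 4 * wt S p := by
      have h11 := over_sum (μ := μ) (D := fun p q => ND S b p q) (wt_nonneg S) hs hK hpair
        (p := p) (by omega)
      have h12 : μ.real (⋃ k : ℕ, ND S b p (p + 1 + k)) ≤ K * wt S p * T (wt S) (p + 1) := by
        rw [Measure.real]
        exact ENNReal.toReal_le_of_le_ofReal
          (mul_nonneg (mul_nonneg hK hw) (T_nonneg (wt_nonneg S) _)) h11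
      refine h12.trans ?_
      calc K * wt S p * T (wt S) (p + 1) = (K * T (wt S) (p + 1)) * wt S p := by ring
        _ ≤ ε / 4 * wt S p := mul_le_mul_of_nonneg_right h3.le hw
    have h13 := (measureReal_mono (μ := μ) (upper hb j p)).trans (measureReal_union_le _ _)
    linarith
  -- lower bound
  have hlow : C * ϑ * wt S p - 3 * (ε / 4) * wt S p ≤ μ.real (LJ S b j p) := by
    rcases le_or_gt (nxt S p j) (2 * p) with h10 | h10
    · have h11 : μ.real (AE S x p ∩ ZE ϑ x p) ≤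
          μ.real (LJ S b j p ∪ {t | bad b p (p * x + t)}) := by
        rw [hμ, measureReal_restrict_apply' measurableSet_Ioc,
          measureReal_restrict_apply' measurableSet_Ioc]
        refine measureReal_mono ?_ ?_
        · rintro t ⟨h12, h13⟩
          exact ⟨lower hb hinf (by omega) h6 h10 h13.1 h12, h13⟩
        · exact ((measure_mono Set.inter_subset_right).trans_lt (by simp)).ne
      have h12 := h11.trans (measureReal_union_le _ _)
      have h13 := (abs_le.1 h9).1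
      linarith
    · have h11 : ϑ ≤ ((b : ℝ) ^ p)⁻¹ := by
        rw [hϑ]
        unfold θ
        exact inv_anti₀ (by positivity) (pow_le_pow_right₀ hb1.le (by omega))
      have h12 : C * ϑ ≤ ε / 4 := (mul_le_mul_of_nonneg_left h11 hC).trans h4
      have h13 : C * ϑ * wt S p ≤ ε / 4 * wt S p := mul_le_mul_of_nonneg_right h12 hw
      have h14 : 0 ≤ μ.real (LJ S b j p) := measureReal_nonneg
      have h15 : 0 ≤ ε * wt S p := mul_nonneg hε.le hw
      linarith
  have h15 : 0 ≤ ε * wt S p := mul_nonneg hε.le hw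
  have h16 := (abs_le.1 h9).2
  rw [abs_le]
  constructor <;> linarith

/-- the last length and the event of a later length -/
lemma last_LJ (S : Set ℕ) (b p : ℕ) :
    Last (AE S (Real.log b)) p = AE S (Real.log b) p \ LJ S b 1 p := by
  ext t
  constructor
  · rintro ⟨h1, h2⟩
    refine ⟨h1, fun h3 => ?_⟩
    have h4 := h3.2
    rw [Nat.cast_one, Set.one_le_encard_iff_nonempty] at h4
    obtain ⟨q, h5, h6⟩ := h4
    have := h2 (show q ∈ {k | t ∈ AE S (Real.log b) k} from h6)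
    omega
  · rintro ⟨h1, h2⟩
    refine ⟨h1, fun q hq => ?_⟩
    by_contra h3
    refine h2 ⟨h1, ?_⟩
    rw [Nat.cast_one, Set.one_le_encard_iff_nonempty]
    exact ⟨q, by omega, hq⟩

lemma meas_LJ (S : Set ℕ) (b p : ℕ) : MeasurableSet (LJ S b 1 p) := by
  have h := (meas_AE S (Real.log b) p).diff (last_meas (S := AE S (Real.log b)) (meas_AE S _) p)
  rw [last_LJ] at h
  have e : AE S (Real.log b) p \ (AE S (Real.log b) p \ LJ S b 1 p) = LJ S b 1 p := by
    ext t
    constructor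
    · rintro ⟨h1, h2⟩
      by_contra h3
      exact h2 ⟨h1, h3⟩
    · intro h1
      exact ⟨h1.1, fun h2 => h2.2 h1⟩
  rwa [e] at h

/-- the weight of the last length -/
noncomputable def wl (b : ℕ) (S : Set ℕ) (p : ℕ) : ℝ := wt S p * (1 - θ b S p 1)

lemma θ_half {b : ℕ} (hb : 2 ≤ b) {S : Set ℕ} (hinf : S.Infinite) (p : ℕ) : θ b S p 1 ≤ 1 / 2 := by
  have hb1 : (2 : ℝ) ≤ b := by exact_mod_cast hb
  unfold θ
  have h1 := le_nxt hinf p 1
  rw [one_div]
  refine inv_anti₀ two_pos ?_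
  calc (2 : ℝ) ≤ b := hb1
    _ = (b : ℝ) ^ 1 := (pow_one _).symm
    _ ≤ _ := pow_le_pow_right₀ (by linarith) (by omega)

lemma wl_nonneg {b : ℕ} (hb : 2 ≤ b) (S : Set ℕ) (p : ℕ) : 0 ≤ wl b S p :=
  mul_nonneg (wt_nonneg _ _) (by have := θ_le_one (b := b) (by omega) S p 1; linarith)

lemma wl_le {b : ℕ} (S : Set ℕ) (p : ℕ) : wl b S p ≤ wt S p := by
  unfold wl
  have h1 := wt_nonneg S p
  have h2 := θ_nonneg b S p 1
  nlinarith [mul_nonneg h1 h2]

lemma wt_le_wl {b : ℕ} (hb : 2 ≤ b) {S : Set ℕ} (hinf : S.Infinite) (p : ℕ) :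
    wt S p ≤ 2 * wl b S p := by
  unfold wl
  have h1 := wt_nonneg S p
  have h2 := θ_half hb hinf p
  nlinarith

theorem last_mass {b : ℕ} (hb : 2 ≤ b) {u v : ℝ} (huv : u < v) {S : Set ℕ} (hinf : S.Infinite)
    (hs : Summable (wt S)) : ∀ ε > 0, ∀ᶠ p : ℕ in atTop,
    |(volume.restrict (Set.Ioc u v)).real (Last (AE S (Real.log b)) p) -
      Cc b u v * wl b S p| ≤ ε * wl b S p := by
  intro ε hε
  have hb1 : (1 : ℝ) < b := by exact_mod_cast (by omega : 1 < b)
  have hx : 0 < Real.log b := Real.log_pos hb1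
  filter_upwards [later_mass hb huv hinf hs 1 (ε / 4) (by positivity),
    mass_A hx huv S (ε / 4) (by positivity)] with p h1 h2
  have h2' : |(volume.restrict (Set.Ioc u v)).real (AE S (Real.log b) p) -
    Cc b u v * wt S p| ≤ ε / 4 * wt S p := h2
  have h3 := wt_le_wl hb hinf p
  have h4 : (volume.restrict (Set.Ioc u v)).real (Last (AE S (Real.log b)) p) =
      (volume.restrict (Set.Ioc u v)).real (AE S (Real.log b) p) -
        (volume.restrict (Set.Ioc u v)).real (LJ S b 1 p) := by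
    rw [last_LJ, measureReal_sdiff (fun t ht => ht.1) (meas_LJ S b p)]
  rw [h4]
  have e : (volume.restrict (Set.Ioc u v)).real (AE S (Real.log b) p) -
      (volume.restrict (Set.Ioc u v)).real (LJ S b 1 p) - Cc b u v * wl b S p =
      ((volume.restrict (Set.Ioc u v)).real (AE S (Real.log b) p) - Cc b u v * wt S p) -
      ((volume.restrict (Set.Ioc u v)).real (LJ S b 1 p) - Cc b u v * θ b S p 1 * wt S p) := by
    unfold wl; ring
  rw [e]
  refine (abs_sub _ _).trans ?_
  nlinarith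

end Pool.Agent.V1193.RU
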